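import Pool.Agent.helper24.ISL.Spec

set_option autoImplicit false

/-! MP_512a69_al, row isl:NG (helper38): the groups of limits. -/

namespace Pool.Agent.ISL

open Matrix Filter Topology

theorem NG (h1 : UG_stmt) : NG_stmt := by
  intro n F _ _ H S b
  have hone : (1 : SL n F) ∈ NS F H S b := by
    intro m hm ε hε
    apply subset_closure
    exact ⟨1, ⟨H.one_mem, (h1 n S b m ε hm hε).1⟩, map_one _⟩
  have hmul : ∀ g ∈ NS F H S b, ∀ g' ∈ NS F H S b, g * g' ∈ NS F H S b := by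
    intro g hg g' hg' m hm ε hε
    obtain ⟨-, ⟨m', ε', hm', hε', h2⟩, -⟩ := h1 n S b m ε hm hε
    refine map_mem_closure₂ (f := fun a c : SL n F => a * c) ?_ (hg m' hm' ε' hε')
      (hg' m' hm' ε' hε') ?_
    · exact continuous_mul
    · rintro _ ⟨x, ⟨hxH, hx⟩, rfl⟩ _ ⟨y, ⟨hyH, hy⟩, rfl⟩
      exact ⟨x * y, ⟨H.mul_mem hxH hyH, (h2 x y hx hy).1⟩, map_mul _ _ _⟩
  have hinv : ∀ g ∈ NS F H S b, g⁻¹ ∈ NS F H S b := by
    intro g hg m hm ε hε
    obtain ⟨-, ⟨m', ε', hm', hε', h2⟩, -⟩ := h1 n S b m ε hm hε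
    refine map_mem_closure (f := fun a : SL n F => a⁻¹) continuous_inv (hg m' hm' ε' hε') ?_
    rintro _ ⟨x, ⟨hxH, hx⟩, rfl⟩
    exact ⟨x⁻¹, ⟨H.inv_mem hxH, (h2 x x hx hx).2⟩, map_inv _ _⟩
  refine ⟨{ carrier := NS F H S b
            mul_mem' := fun {a c} ha hc => hmul a ha c hc
            one_mem' := hone
            inv_mem' := fun {a} ha => hinv a ha }, rfl, ?_, ?_⟩
  · have h3 : NS F H S b = ⋂ m : ℕ, ⋂ (_ : 0 < m), ⋂ ε : ℚ, ⋂ (_ : 0 < ε),
        closure (cs F '' U H S b m ε) := by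
      ext g
      simp only [NS, Set.mem_ofPred_eq, Set.mem_iInter]
    change IsClosed (NS F H S b)
    rw [h3]
    exact isClosed_iInter fun _ => isClosed_iInter fun _ => isClosed_iInter fun _ =>
      isClosed_iInter fun _ => isClosed_closure
  · intro x hx k hk m hm ε hε
    obtain ⟨-, -, h2⟩ := h1 n S b m ε hm hε
    obtain ⟨m', ε', hm', hε', h4⟩ := h2 x
    have hk' : k ∈ NS F H S b := hk
    refine map_mem_closure (f := fun a : SL n F => cs F x * a * (cs F x)⁻¹) ?_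
      (hk' m' hm' ε' hε') ?_
    · exact (continuous_const.mul continuous_id).mul continuous_const
    · rintro _ ⟨y, ⟨hyH, hy⟩, rfl⟩
      refine ⟨x * y * x⁻¹, ⟨H.mul_mem (H.mul_mem hx hyH) (H.inv_mem hx), h4 y hy⟩, ?_⟩
      simp only [map_mul, map_inv]

end Pool.Agent.ISL
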